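import Pool.Agent.H96.SX.DTL

/-!
# Row PAD: a combination of monomials whose jets vanish on a finite set
-/

set_option autoImplicit false

open Finset Polynomial Pool.Agent.H29.SX Pool.Agent.H29.RQ

namespace Pool.Agent.H96.SX

section
variable {M : Type} [Field M] {v : AbsoluteValue M ℝ} {R r : ℕ}

/-- The polynomials of the expansion. -/
noncomputable def hp (c : Fin R → M) (e : Fin R → ℕ) (bb : Fin R → Fin r → ℕ) (g : Fin r → M)
    (lam : Fin r → ℕ) : M[X] :=
  ∑ j, monomial (e j) (c j * ∏ i, (((bb j i).choose (lam i) : M) * g i ^ (bb j i - lam i)))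

lemma hp_eval (c : Fin R → M) (e : Fin R → ℕ) (bb : Fin R → Fin r → ℕ) (g : Fin r → M)
    (lam : Fin r → ℕ) (w : M) : (hp c e bb g lam).eval w =
      ∑ j, (c j * ∏ i, (((bb j i).choose (lam i) : M) * g i ^ (bb j i - lam i))) * w ^ (e j) := by
  unfold hp
  rw [eval_finsetSum]
  exact Finset.sum_congr rfl fun j _ => eval_monomial

lemma pow_expand (g g' : M) (b B : ℕ) (hb : b ≤ B) :
    g' ^ b = ∑ k ∈ range (B + 1), (g' - g) ^ k * ((b.choose k : M) * g ^ (b - k)) := by
  have h1 : g' ^ b = ((g' - g) + g) ^ b := by rw [sub_add_cancel]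
  rw [h1, add_pow]
  have h2 : range (b + 1) ⊆ range (B + 1) := by
    intro x hx
    rw [mem_range] at *
    omega
  rw [← Finset.sum_subset h2]
  · apply Finset.sum_congr rfl
    intro k _
    ring
  · intro k _ hk
    rw [mem_range, not_lt] at hk
    rw [Nat.choose_eq_zero_of_lt (by omega)]
    simp

lemma hp_expand (c : Fin R → M) (e : Fin R → ℕ) (bb : Fin R → Fin r → ℕ) (g g' : Fin r → M)
    (w : M) (B : ℕ) (hB : ∀ j i, bb j i ≤ B) :
    ∑ j, c j * (w ^ (e j) * ∏ i, g' i ^ (bb j i)) =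
      ∑ lam ∈ Fintype.piFinset (fun _ : Fin r => range (B + 1)),
        (∏ i, (g' i - g i) ^ (lam i)) * (hp c e bb g lam).eval w := by
  have h1 : ∀ j, ∏ i, g' i ^ (bb j i) =
      ∑ lam ∈ Fintype.piFinset (fun _ : Fin r => range (B + 1)),
        (∏ i, (g' i - g i) ^ (lam i)) *
          ∏ i, (((bb j i).choose (lam i) : M) * g i ^ (bb j i - lam i)) := by
    intro j
    rw [Finset.prod_congr rfl (fun i _ => pow_expand (g i) (g' i) (bb j i) B (hB j i)),
      Finset.prod_univ_sum]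
    apply Finset.sum_congr rfl
    intro lam _
    rw [Finset.prod_mul_distrib]
  simp_rw [hp_eval, Finset.mul_sum]
  rw [Finset.sum_comm]
  apply Finset.sum_congr rfl
  intro j _
  rw [h1, Finset.mul_sum, Finset.mul_sum]
  apply Finset.sum_congr rfl
  intro lam _
  ring

lemma hp_coeff (hv : IsNonarchimedean v) {c : Fin R → M} (hc : ∀ j, v (c j) ≤ 1) (e : Fin R → ℕ)
    (bb : Fin R → Fin r → ℕ) {g : Fin r → M} (hg : ∀ i, v (g i) = 1) (lam : Fin r → ℕ) (k : ℕ) :
    v ((hp c e bb g lam).coeff k) ≤ 1 := by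
  unfold hp
  rw [finsetSum_coeff]
  apply na_sum hv _ _ (by norm_num)
  intro j _
  rw [coeff_monomial]
  split_ifs
  · rw [map_mul, map_prod]
    have h1 : ∏ i, v (((bb j i).choose (lam i) : M) * g i ^ (bb j i - lam i)) ≤ 1 := by
      apply Finset.prod_le_one (fun i _ => v.nonneg _)
      intro i _
      rw [map_mul, map_pow, hg, one_pow, mul_one]
      exact hv.apply_natCast_le_one
    calc v (c j) * ∏ i, v (((bb j i).choose (lam i) : M) * g i ^ (bb j i - lam i)) ≤ 1 * 1 :=
          mul_le_mul (hc j) h1 (Finset.prod_nonneg fun i _ => v.nonneg _) (by norm_num)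
      _ = 1 := one_mul _
  · simp

lemma hp_deg (c : Fin R → M) {e : Fin R → ℕ} (bb : Fin R → Fin r → ℕ) (g : Fin r → M)
    (lam : Fin r → ℕ) {Δ : ℕ} (he : ∀ j, e j ≤ Δ) : (hp c e bb g lam).natDegree ≤ Δ := by
  unfold hp
  apply natDegree_sum_le_of_forall_le
  intro j _
  exact (natDegree_monomial_le _).trans (he j)

/-- Divisibility. -/
lemma hp_dvd [CharZero M] (hPDH : T_PDH) {t : ℕ} {nn : Fin R → Fin (r + 1) → ℤ}
    {g : Fin r → M} (hg0 : ∀ i, g i ≠ 0) {U : Finset M} (hU : ∀ u ∈ U, u ≠ 0) {c : Fin R → M}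
    (hvan : ∀ u ∈ U, ∀ κ : Fin (r + 1) → ℕ, ∑ l, κ l < t →
      ∑ j, c j * (jc M κ (nn j) * pt g u (nn j)) = 0)
    {n0 : Fin (r + 1) → ℤ} {b : Fin R → Fin (r + 1) → ℕ} (hb : ∀ j l, (b j l : ℤ) = nn j l + n0 l)
    (lam : Fin r → ℕ) :
    (∏ u ∈ U, (X - C u)) ^ (t - ∑ i, lam i) ∣
      hp c (fun j => b j 0) (fun j i => b j i.succ) g lam := by
  rw [← Finset.prod_pow]
  apply Finset.prod_dvd_of_coprime
  · intro u _ u' _ hne
    exact (isCoprime_X_sub_C_of_isUnit_sub (sub_ne_zero.2 hne).isUnit).pow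
  · intro u hu
    rw [X_sub_C_pow_dvd_iff, X_pow_dvd_iff]
    intro k hk
    have h1 : (hp c (fun j => b j 0) (fun j i => b j i.succ) g lam).comp (X + C u) =
        taylor u (hp c (fun j => b j 0) (fun j i => b j i.succ) g lam) := rfl
    rw [h1, taylor_coeff]
    unfold hp
    rw [map_sum, eval_finsetSum]
    have hu0 := hU u hu
    have h2 := hPDH M (r + 1) t R nn c (fun j => pt g u (nn j)) (hvan u hu) n0 b hb
      (Fin.cons k lam) (by
        rw [Fin.sum_univ_succ]
        simp only [Fin.cons_zero, Fin.cons_succ]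
        omega)
    have h3 : ∀ j : Fin R, ((hasseDeriv k) ((monomial (b j 0)) (c j * ∏ i,
        (((b j i.succ).choose (lam i) : M) * g i ^ (b j i.succ - lam i))))).eval u =
        (u ^ (n0 0 - k) * ∏ i, g i ^ (n0 i.succ - lam i)) *
        (c j * ((∏ l, ((b j l).choose ((Fin.cons k lam : Fin (r + 1) → ℕ) l) : M)) *
          pt g u (nn j))) := by
      intro j
      rw [hasseDeriv_monomial, eval_monomial, Fin.prod_univ_succ]
      simp only [Fin.cons_zero, Fin.cons_succ]
      unfold pt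
      rw [Finset.prod_mul_distrib]
      have e1 : ((b j 0).choose k : M) * u ^ (b j 0 - k) =
          ((b j 0).choose k : M) * (u ^ (n0 0 - k) * u ^ (nn j 0)) := by
        by_cases hk' : k ≤ b j 0
        · congr 1
          rw [← zpow_natCast, ← zpow_add₀ hu0]
          congr 1
          rw [Nat.cast_sub hk', hb j 0]
          ring
        · rw [Nat.choose_eq_zero_of_lt (not_le.1 hk')]
          simp
      have e2 : (∏ i, ((b j (Fin.succ i)).choose (lam i) : M)) *
          (∏ i, g i ^ (b j (Fin.succ i) - lam i)) =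
          (∏ i, ((b j (Fin.succ i)).choose (lam i) : M)) *
          ((∏ i, g i ^ (n0 i.succ - lam i)) * ∏ i, g i ^ (nn j i.succ)) := by
        rw [← Finset.prod_mul_distrib, ← Finset.prod_mul_distrib, ← Finset.prod_mul_distrib]
        apply Finset.prod_congr rfl
        intro i _
        by_cases hk' : lam i ≤ b j i.succ
        · congr 1
          rw [← zpow_natCast, ← zpow_add₀ (hg0 i)]
          congr 1
          rw [Nat.cast_sub hk', hb j i.succ]
          ring
        · rw [Nat.choose_eq_zero_of_lt (not_le.1 hk')]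
          simp
      calc ((b j 0).choose k : M) * (c j * ((∏ i, ((b j (Fin.succ i)).choose (lam i) : M)) *
            (∏ i, g i ^ (b j (Fin.succ i) - lam i)))) * u ^ (b j 0 - k)
          = (((b j 0).choose k : M) * u ^ (b j 0 - k)) * c j *
            ((∏ i, ((b j (Fin.succ i)).choose (lam i) : M)) *
            (∏ i, g i ^ (b j (Fin.succ i) - lam i))) := by ring
        _ = _ := by
            rw [e1, e2]
            ring
    rw [Finset.sum_congr rfl (fun j _ => h3 j), ← Finset.mul_sum, h2, mul_zero]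

end

theorem pf_PAD (hGAU : T_GAU) (hPDH : T_PDH) : T_PAD := by
  intro M _ _ v hv r t R nn g g' w U ϖ hϖ0 hϖ1 hg hg' hgg hw hU hdch c hc hvan B hB0 hB
  rcases Nat.eq_zero_or_pos R with hR | hR
  · subst hR
    simp only [Finset.univ_eq_empty, Finset.sum_empty, map_zero]
    positivity
  have : Nonempty (Fin R) := ⟨⟨0, hR⟩⟩
  have hg0 : ∀ i, g i ≠ 0 := fun i => v.ne_zero_iff.1 (by rw [hg i]; norm_num)
  have hg0' : ∀ i, g' i ≠ 0 := fun i => v.ne_zero_iff.1 (by rw [hg' i]; norm_num)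
  -- the minima
  have hmin : ∀ l, ∃ j, ∀ j', nn j l ≤ nn j' l := fun l => Finite.exists_min (fun j => nn j l)
  choose jm hjm using hmin
  set m0 : Fin (r + 1) → ℤ := fun l => nn (jm l) l with hm0
  set b : Fin R → Fin (r + 1) → ℕ := fun j l => (nn j l - m0 l).toNat with hb
  have hbz : ∀ j l, (b j l : ℤ) = nn j l + (- m0 l) := by
    intro j l
    have := hjm l j
    rw [hb]
    simp only
    rw [Int.toNat_of_nonneg (by rw [hm0]; simp only; omega)]
    ring
  obtain ⟨Bm, hBm⟩ : ∃ Bm, ∀ j l, b j l ≤ Bm := by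
    refine ⟨∑ j, ∑ l, b j l, fun j l => ?_⟩
    calc b j l ≤ ∑ l, b j l := Finset.single_le_sum (fun _ _ => Nat.zero_le _) (mem_univ l)
      _ ≤ _ := Finset.single_le_sum (f := fun j => ∑ l, b j l) (fun _ _ => Nat.zero_le _)
          (mem_univ j)
  obtain ⟨jM, hjM⟩ := Finite.exists_max (fun j => b j 0)
  set Δ := b jM 0 with hΔ
  have hvw : 0 < v w := v.pos hw
  have hmx : 0 ≤ (max (v w) 1) ^ Δ := by positivity
  -- the polynomial part
  set P : M := ∑ j, c j * (w ^ (b j 0) * ∏ i, g' i ^ (b j (Fin.succ i))) with hP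
  have hPb : v P ≤ ϖ ^ t * (max (v w) 1) ^ Δ := by
    rw [hP, hp_expand c (fun j => b j 0) (fun j i => b j (Fin.succ i)) g g' w Bm
      (fun j i => hBm j _)]
    apply na_sum hv _ _ (by positivity)
    intro lam _
    rw [map_mul, map_prod]
    have h1 : ∏ i, v ((g' i - g i) ^ (lam i)) ≤ ϖ ^ (∑ i, lam i) := by
      rw [← Finset.prod_pow_eq_pow_sum]
      apply Finset.prod_le_prod (fun i _ => v.nonneg _)
      intro i _
      rw [map_pow]
      exact pow_le_pow_left₀ (v.nonneg _) (hgg i) _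
    have h2 := hGAU M v hv U (t - ∑ i, lam i)
      (hp c (fun j => b j 0) (fun j i => b j (Fin.succ i)) g lam) Δ
      (hp_dvd hPDH hg0 hU hvan hbz lam) (fun k => hp_coeff hv hc _ _ hg lam k)
      (hp_deg c _ g lam hjM) w
    have hd0 : 0 ≤ ∏ u ∈ U, dch v w u := by
      apply Finset.prod_nonneg
      intro u _
      unfold dch
      positivity
    have h3 : v ((hp c (fun j => b j 0) (fun j i => b j (Fin.succ i)) g lam).eval w) ≤
        ϖ ^ (t - ∑ i, lam i) * (max (v w) 1) ^ Δ := by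
      refine h2.trans ?_
      exact mul_le_mul_of_nonneg_right (pow_le_pow_left₀ hd0 hdch _) hmx
    calc (∏ i, v ((g' i - g i) ^ (lam i))) *
          v ((hp c (fun j => b j 0) (fun j i => b j (Fin.succ i)) g lam).eval w) ≤
          ϖ ^ (∑ i, lam i) * (ϖ ^ (t - ∑ i, lam i) * (max (v w) 1) ^ Δ) :=
          mul_le_mul h1 h3 (v.nonneg _) (by positivity)
      _ = ϖ ^ (∑ i, lam i + (t - ∑ i, lam i)) * (max (v w) 1) ^ Δ := by
          rw [pow_add]; ring
      _ ≤ ϖ ^ t * (max (v w) 1) ^ Δ := by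
          apply mul_le_mul_of_nonneg_right _ hmx
          exact pow_le_pow_of_le_one hϖ0.le hϖ1 (by omega)
  -- the relation with the sum
  have hS : ∑ j, c j * pt g' w (nn j) = (w ^ (m0 0) * ∏ i, g' i ^ (m0 (Fin.succ i))) * P := by
    rw [hP, Finset.mul_sum]
    apply Finset.sum_congr rfl
    intro j _
    unfold pt
    have e1 : w ^ (nn j 0) = w ^ (m0 0) * w ^ (b j 0) := by
      rw [← zpow_natCast w (b j 0), ← zpow_add₀ hw]
      congr 1
      rw [hbz]
      ring
    have e2 : ∏ i, g' i ^ (nn j (Fin.succ i)) =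
        (∏ i, g' i ^ (m0 (Fin.succ i))) * ∏ i, g' i ^ (b j (Fin.succ i)) := by
      rw [← Finset.prod_mul_distrib]
      apply Finset.prod_congr rfl
      intro i _
      rw [← zpow_natCast (g' i) (b j (Fin.succ i)), ← zpow_add₀ (hg0' i)]
      congr 1
      rw [hbz]
      ring
    rw [e1, e2]
    ring
  rw [hS, map_mul, map_mul, map_prod, map_zpow₀]
  have e3 : ∏ i, v (g' i ^ (m0 (Fin.succ i))) = 1 := by
    apply Finset.prod_eq_one
    intro i _
    rw [map_zpow₀, hg', one_zpow]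
  rw [e3, mul_one]
  have e4 : v w ^ (m0 0) * (max (v w) 1) ^ Δ ≤ B := by
    rcases le_total (v w) 1 with h | h
    · rw [max_eq_right h, one_pow, mul_one]
      exact hB (jm 0)
    · rw [max_eq_left h, ← zpow_natCast, ← zpow_add₀ hvw.ne']
      have : m0 0 + (Δ : ℤ) = nn jM 0 := by
        rw [hΔ, hbz]
        ring
      rw [this]
      exact hB jM
  calc v w ^ (m0 0) * v P ≤ v w ^ (m0 0) * (ϖ ^ t * (max (v w) 1) ^ Δ) := by
        gcongr
    _ = ϖ ^ t * (v w ^ (m0 0) * (max (v w) 1) ^ Δ) := by ring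
    _ ≤ ϖ ^ t * B := by gcongr

end Pool.Agent.H96.SX
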